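import Pool.Agent.H59.DE.Net

/-!
# MP_3b2820_co: the density domination exponents of cycles in longer even cycles

For all `3 ≤ m < n`, `n` even, `ρ(C_m, C_n) = n (n - 2) / (n m - n - m)`. In particular
`ρ(C_3, C_4) = 8 / 5`.
-/

set_option autoImplicit false

namespace Pool.Agent.Results.MP_3b2820_co.CyclesInEvenCycles

open Pool.Agent.H59.DE

/-- The homomorphism density `t(F, W) = hom(F, W) / |V(W)| ^ |V(F)|` of a finite graph `F` in a
finite graph `W`. -/
noncomputable def t {V X : Type} [Fintype V] [Fintype X] (F : SimpleGraph V) (W : SimpleGraph X) :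
    ℝ :=
  (Nat.card (F →g W) : ℝ) / (Fintype.card X : ℝ) ^ Fintype.card V

/-- The density domination exponent `ρ(G, H)` is finite and equal to `ρ`: the supremum of
`log t(H, W) / log t(G, W)` over the finite graphs `W` with `t(G, W) ≠ 0, 1` is `ρ` (and
`t(H, W) ≠ 0` for all these `W`, since otherwise the ratio is infinite). -/
def IsDominationExponent {V V' : Type} [Fintype V] [Fintype V'] (G : SimpleGraph V)
    (H : SimpleGraph V') (ρ : ℝ) : Prop :=
  (∀ (X : Type) [Fintype X] (W : SimpleGraph X), t G W ≠ 0 → t G W ≠ 1 →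
    t H W ≠ 0 ∧ Real.log (t H W) / Real.log (t G W) ≤ ρ) ∧
  ∀ c < ρ, ∃ (X : Type) (_ : Fintype X) (W : SimpleGraph X), t G W ≠ 0 ∧ t G W ≠ 1 ∧
    c < Real.log (t H W) / Real.log (t G W)

theorem t_lt_one {V X : Type} [Fintype V] [Fintype X] [Nonempty X] (F : SimpleGraph V)
    (W : SimpleGraph X) {a b : V} (hab : F.Adj a b) : t F W < 1 := by
  classical
  haveI : Fintype (F →g W) := Fintype.ofFinite _
  have h1 : Fintype.card (F →g W) < Fintype.card (V → X) := by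
    refine Fintype.card_lt_of_injective_not_surjective (fun f : F →g W => (f : V → X))
      DFunLike.coe_injective ?_
    intro hs
    obtain ⟨x⟩ := ‹Nonempty X›
    obtain ⟨f, hf⟩ := hs (fun _ => x)
    have h2 := f.map_rel hab
    have e1 : f a = x := congrFun hf a
    have e2 : f b = x := congrFun hf b
    rw [e1, e2] at h2
    exact W.loopless.irrefl _ h2
  unfold t
  have hN : (0 : ℝ) < Fintype.card X := by exact_mod_cast Fintype.card_pos
  rw [div_lt_one (by positivity), Nat.card_eq_fintype_card]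
  rw [Fintype.card_fun] at h1
  exact_mod_cast h1

theorem t_cycle {X : Type} [Fintype X] [DecidableEq X] (W : SimpleGraph X) (k : ℕ) :
    t (SimpleGraph.cycleGraph (k + 3)) W = cw W (k + 3) / (Fintype.card X : ℝ) ^ (k + 3) := by
  unfold t
  rw [card_hom, Fintype.card_fin]
  rfl

theorem upper {X : Type} [Fintype X] (W : SimpleGraph X) (k K : ℕ) (hK : k + 3 < 2 * (K + 2))
    (h0 : t (SimpleGraph.cycleGraph (k + 3)) W ≠ 0) :
    t (SimpleGraph.cycleGraph (2 * (K + 2))) W ≠ 0 ∧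
    Real.log (t (SimpleGraph.cycleGraph (2 * (K + 2))) W) /
      Real.log (t (SimpleGraph.cycleGraph (k + 3)) W) ≤
      ((2 * (K + 2) : ℕ) : ℝ) * (((2 * (K + 2) : ℕ) : ℝ) - 2) /
      (((2 * (K + 2) : ℕ) : ℝ) * ((k + 3 : ℕ) : ℝ) - ((2 * (K + 2) : ℕ) : ℝ) - ((k + 3 : ℕ) : ℝ)) := by
  classical
  haveI : Nonempty X := by
    by_contra hX
    rw [not_nonempty_iff] at hX
    apply h0
    unfold t
    rw [Fintype.card_eq_zero, Fintype.card_fin]
    simp
  have hN : (0 : ℝ) < Fintype.card X := by exact_mod_cast Fintype.card_pos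
  have hlt := t_lt_one (SimpleGraph.cycleGraph (k + 3)) W (a := 0) (b := 1) (by
    rw [SimpleGraph.cycleGraph_adj]; right; simp)
  have hTpos : 0 < t (SimpleGraph.cycleGraph (k + 3)) W := by
    refine lt_of_le_of_ne ?_ (Ne.symm h0)
    unfold t
    positivity
  rw [t_cycle] at hTpos hlt ⊢
  have e2 : 2 * (K + 2) = (2 * K + 1) + 3 := by ring
  have e2' : t (SimpleGraph.cycleGraph (2 * (K + 2))) W =
      cw W (2 * (K + 2)) / (Fintype.card X : ℝ) ^ (2 * (K + 2)) := by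
    rw [e2]
    exact t_cycle W (2 * K + 1)
  rw [e2']
  have hcm : 0 < cw W (k + 3) := by
    have := mul_pos hTpos (pow_pos hN (k + 3))
    rwa [div_mul_cancel₀ _ (pow_pos hN _).ne'] at this
  have he : 0 < wk W 1 := by
    refine lt_of_le_of_ne (wk_one_nonneg W) ?_
    intro h
    have hA : am W = 0 := by
      unfold wk at h
      rw [pow_one] at h
      have h1 := (Finset.sum_eq_zero_iff_of_nonneg (fun x _ => Finset.sum_nonneg
        fun y _ => am_nonneg W x y)).1 h.symm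
      ext x y
      exact (Finset.sum_eq_zero_iff_of_nonneg (fun y _ => am_nonneg W x y)).1
        (h1 x (Finset.mem_univ _)) y (Finset.mem_univ _)
    apply hcm.ne'
    unfold cw
    rw [hA, zero_pow (by omega), Matrix.trace_zero]
  have hcn := cw_even_pos W he (K + 2)
  refine ⟨(div_pos hcn (pow_pos hN _)).ne', ?_⟩
  have h1 := cw_interp W he (k + 3) (K + 2) (by omega) (by omega) hcm
  have h2 := Real.log_le_log (by positivity) (cw_pow W he (K + 2))
  rw [Real.log_pow, Real.log_div he.ne' hN.ne'] at h2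
  rw [cw_two] at h1
  set LN := Real.log (Fintype.card X : ℝ) with hLN
  set Le := Real.log (wk W 1)
  have hT : Real.log (cw W (k + 3) / (Fintype.card X : ℝ) ^ (k + 3)) =
      Real.log (cw W (k + 3)) - ((k + 3 : ℕ) : ℝ) * LN := by
    rw [Real.log_div hcm.ne' (pow_pos hN _).ne', Real.log_pow]
  have hS : Real.log (cw W (2 * (K + 2)) / (Fintype.card X : ℝ) ^ (2 * (K + 2))) =
      Real.log (cw W (2 * (K + 2))) - ((2 * (K + 2) : ℕ) : ℝ) * LN := by
    rw [Real.log_div hcn.ne' (pow_pos hN _).ne', Real.log_pow]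
  have hTneg : Real.log (cw W (k + 3) / (Fintype.card X : ℝ) ^ (k + 3)) < 0 :=
    Real.log_neg hTpos hlt
  have hkr : (k : ℝ) + 3 < 2 * ((K : ℝ) + 2) := by exact_mod_cast hK
  have hk0 : (0 : ℝ) ≤ k := Nat.cast_nonneg k
  have hK0 : (0 : ℝ) ≤ K := Nat.cast_nonneg K
  have hB : (0 : ℝ) < ((2 * (K + 2) : ℕ) : ℝ) * ((k + 3 : ℕ) : ℝ) - ((2 * (K + 2) : ℕ) : ℝ) -
      ((k + 3 : ℕ) : ℝ) := by
    push_cast
    nlinarith
  rw [div_le_iff_of_neg hTneg, div_mul_eq_mul_div, div_le_iff₀ hB, hT, hS]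
  push_cast at h1 h2 ⊢
  have h3 := mul_le_mul_of_nonneg_left h2
    (by linarith : (0 : ℝ) ≤ 2 * ((K : ℝ) + 2) - ((k : ℝ) + 3))
  have h4 := mul_le_mul_of_nonneg_left h1 (by linarith : (0 : ℝ) ≤ 2 * ((K : ℝ) + 2))
  nlinarith

theorem net_S {q r : ℕ} (hq : q.Prime) (hr : 2 ≤ r) (l : ℕ) (h1 : r ^ (l + 2) < q) [Fintype (ZMod q)] :
    t (SimpleGraph.cycleGraph (l + 3)) (net q r) * (r : ℝ) ^ ((l + 3) * (l + 1)) ≤ 2 := by
  haveI : Fact q.Prime := ⟨hq⟩
  have hrq : r ≤ q := (Nat.le_self_pow (by omega) r).trans h1.le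
  have hQ : (0 : ℝ) < q := by exact_mod_cast hq.pos
  have hR : (0 : ℝ) < r := by exact_mod_cast (by omega : 0 < r)
  have h1' : (r : ℝ) ^ (l + 2) ≤ q := by exact_mod_cast h1.le
  have hup : (Nat.card (SimpleGraph.cycleGraph (l + 3) →g net q r) : ℝ) ≤
      (r : ℝ) ^ (l + 3) * (q : ℝ) ^ (l + 3) + r * (q : ℝ) ^ (l + 4) := by
    exact_mod_cast net_upper hq hrq l
  unfold t
  rw [Fintype.card_prod, ZMod.card, Fintype.card_fin, div_mul_eq_mul_div]
  push_cast
  rw [div_le_iff₀ (by positivity)]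
  have e1 : (r : ℝ) ^ ((l + 3) * (l + 1)) * (r : ℝ) ^ (l + 3) ≤ (q : ℝ) ^ (l + 3) := by
    rw [← pow_add, show (l + 3) * (l + 1) + (l + 3) = (l + 2) * (l + 3) from by ring, pow_mul]
    exact pow_le_pow_left₀ (by positivity) h1' _
  have e2 : (r : ℝ) ^ ((l + 3) * (l + 1)) * (r : ℝ) ≤ (q : ℝ) ^ (l + 2) := by
    rw [← pow_succ, show (l + 3) * (l + 1) + 1 = (l + 2) * (l + 2) from by ring, pow_mul]
    exact pow_le_pow_left₀ (by positivity) h1' _
  have e3 := mul_le_mul_of_nonneg_right hup (by positivity : (0 : ℝ) ≤ (r : ℝ) ^ ((l + 3) * (l + 1)))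
  have e4 := mul_le_mul_of_nonneg_right e1 (by positivity : (0 : ℝ) ≤ (q : ℝ) ^ (l + 3))
  have e5 := mul_le_mul_of_nonneg_right e2 (by positivity : (0 : ℝ) ≤ (q : ℝ) ^ (l + 4))
  have e6 : (q : ℝ) ^ (l + 3) * (q : ℝ) ^ (l + 3) = ((q : ℝ) * q) ^ (l + 3) := (mul_pow _ _ _).symm
  have e7 : (q : ℝ) ^ (l + 2) * (q : ℝ) ^ (l + 4) = ((q : ℝ) * q) ^ (l + 3) := by
    rw [mul_pow, ← pow_add, ← pow_add]
    congr 1
    ring
  rw [e6] at e4
  rw [e7] at e5
  nlinarith

theorem net_T {q r : ℕ} (hq : q.Prime) (hr : 2 ≤ r) (k l : ℕ) (h1 : r ^ (l + 2) < q)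
    (h2 : q ≤ 2 * r ^ (l + 2)) [Fintype (ZMod q)] :
    1 ≤ t (SimpleGraph.cycleGraph (k + 3)) (net q r) *
      ((6 : ℝ) ^ (k + 3) * 2 ^ (k + 2) * (r : ℝ) ^ ((l + 2) * (k + 1) + (l + 1))) := by
  haveI : Fact q.Prime := ⟨hq⟩
  have hrq : r ≤ q := (Nat.le_self_pow (by omega) r).trans h1.le
  have hQ : (0 : ℝ) < q := by exact_mod_cast hq.pos
  have hR : (0 : ℝ) < r := by exact_mod_cast (by omega : 0 < r)
  have h2' : (q : ℝ) ≤ 2 * (r : ℝ) ^ (l + 2) := by exact_mod_cast h2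
  have hq3 : 4 ≤ q := by
    have : 2 ^ 2 ≤ r ^ (l + 2) := (Nat.pow_le_pow_left hr 2).trans (Nat.pow_le_pow_right (by omega) (by omega))
    omega
  have hlow : (r : ℝ) * q * ((q / 3 : ℕ) : ℝ) ^ (k + 3) ≤
      (Nat.card (SimpleGraph.cycleGraph (k + 3) →g net q r) : ℝ) := by
    exact_mod_cast net_lower hq hrq k
  have h6 : (q : ℝ) / 6 ≤ ((q / 3 : ℕ) : ℝ) := by
    rw [div_le_iff₀ (by norm_num)]
    have : q ≤ q / 3 * 6 := by omega
    exact_mod_cast this
  unfold t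
  rw [Fintype.card_prod, ZMod.card, Fintype.card_fin, div_mul_eq_mul_div]
  push_cast
  rw [one_le_div₀ (by positivity)]
  have e1 : (q : ℝ) ^ (k + 2) ≤ (2 * (r : ℝ) ^ (l + 2)) ^ (k + 2) := pow_le_pow_left₀ hQ.le h2' _
  have e2 : ((q : ℝ) / 6) ^ (k + 3) ≤ ((q / 3 : ℕ) : ℝ) ^ (k + 3) :=
    pow_le_pow_left₀ (by positivity) h6 _
  have e3 : (r : ℝ) * q * ((q : ℝ) / 6) ^ (k + 3) ≤
      (Nat.card (SimpleGraph.cycleGraph (k + 3) →g net q r) : ℝ) :=
    le_trans (mul_le_mul_of_nonneg_left e2 (by positivity)) hlow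
  have e4 := mul_le_mul_of_nonneg_right e3 (by positivity : (0 : ℝ) ≤
    (6 : ℝ) ^ (k + 3) * 2 ^ (k + 2) * (r : ℝ) ^ ((l + 2) * (k + 1) + (l + 1)))
  refine le_trans ?_ e4
  have e5 : (r : ℝ) * q * ((q : ℝ) / 6) ^ (k + 3) *
      ((6 : ℝ) ^ (k + 3) * 2 ^ (k + 2) * (r : ℝ) ^ ((l + 2) * (k + 1) + (l + 1))) =
      (2 * (r : ℝ) ^ (l + 2)) ^ (k + 2) * (q : ℝ) ^ (k + 4) := by
    rw [div_pow, mul_pow 2, ← pow_mul, show (l + 2) * (k + 2) = (l + 2) * (k + 1) + (l + 1) + 1 from by ring,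
      pow_succ (r : ℝ) ((l + 2) * (k + 1) + (l + 1)), pow_succ (q : ℝ) (k + 3)]
    field_simp
  rw [e5]
  have e6 : ((q : ℝ) * q) ^ (k + 3) = (q : ℝ) ^ (k + 2) * (q : ℝ) ^ (k + 4) := by
    rw [mul_pow, ← pow_add, ← pow_add]
    congr 1
    ring
  rw [e6]
  exact mul_le_mul_of_nonneg_right e1 (by positivity)

theorem lower (k l : ℕ) (c : ℝ) (hc : c < (((l + 3) * (l + 1) : ℕ) : ℝ) /
    (((l + 2) * (k + 1) + (l + 1) : ℕ) : ℝ)) :
    ∃ (X : Type) (_ : Fintype X) (W : SimpleGraph X), t (SimpleGraph.cycleGraph (k + 3)) W ≠ 0 ∧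
      t (SimpleGraph.cycleGraph (k + 3)) W ≠ 1 ∧
      c < Real.log (t (SimpleGraph.cycleGraph (l + 3)) W) /
        Real.log (t (SimpleGraph.cycleGraph (k + 3)) W) := by
  set D : ℝ := (((l + 3) * (l + 1) : ℕ) : ℝ) with hD
  set B : ℝ := (((l + 2) * (k + 1) + (l + 1) : ℕ) : ℝ) with hB
  have hBpos : 0 < B := by rw [hB]; positivity
  have hDpos : 0 < D := by rw [hD]; positivity
  obtain ⟨c', hc0, hcc', hc'⟩ : ∃ c' : ℝ, 0 ≤ c' ∧ c ≤ c' ∧ c' * B < D := by
    refine ⟨max c 0, le_max_right _ _, le_max_left _ _, ?_⟩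
    rw [← lt_div_iff₀ hBpos]
    exact max_lt hc (by positivity)
  set C0 : ℝ := (6 : ℝ) ^ (k + 3) * 2 ^ (k + 2) with hC0
  have hC0pos : 0 < C0 := by rw [hC0]; positivity
  obtain ⟨r, hr2, hrM⟩ : ∃ r : ℕ, 2 ≤ r ∧ Real.log 2 + c' * Real.log C0 < (D - c' * B) * Real.log r := by
    obtain ⟨r0, hr0⟩ := exists_nat_gt (Real.exp ((Real.log 2 + c' * Real.log C0) / (D - c' * B)))
    refine ⟨max r0 2, le_max_right _ _, ?_⟩
    have h1 : Real.exp ((Real.log 2 + c' * Real.log C0) / (D - c' * B)) < ((max r0 2 : ℕ) : ℝ) :=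
      lt_of_lt_of_le hr0 (by exact_mod_cast le_max_left _ _)
    have h2 := Real.log_lt_log (Real.exp_pos _) h1
    rw [Real.log_exp, div_lt_iff₀ (by linarith)] at h2
    linarith
  obtain ⟨q, hq, hq1, hq2⟩ := Nat.exists_prime_lt_and_le_two_mul (r ^ (l + 2)) (by positivity)
  haveI : Fact q.Prime := ⟨hq⟩
  have hR : (0 : ℝ) < r := by exact_mod_cast (by omega : 0 < r)
  have hrq : r ≤ q := (Nat.le_self_pow (by omega) r).trans hq1.le
  have hS := net_S hq hr2 l hq1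
  have hT := net_T hq hr2 k l hq1 hq2
  rw [← hC0] at hT
  have hTpos : 0 < t (SimpleGraph.cycleGraph (k + 3)) (net q r) := by
    by_contra h
    push Not at h
    have : t (SimpleGraph.cycleGraph (k + 3)) (net q r) *
      (C0 * (r : ℝ) ^ ((l + 2) * (k + 1) + (l + 1))) ≤ 0 :=
      mul_nonpos_of_nonpos_of_nonneg h (by positivity)
    linarith
  have hSpos : 0 < t (SimpleGraph.cycleGraph (l + 3)) (net q r) := by
    by_contra h
    push Not at h
    have h3 := net_T hq hr2 l l hq1 hq2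
    have : t (SimpleGraph.cycleGraph (l + 3)) (net q r) *
      ((6 : ℝ) ^ (l + 3) * 2 ^ (l + 2) * (r : ℝ) ^ ((l + 2) * (l + 1) + (l + 1))) ≤ 0 :=
      mul_nonpos_of_nonpos_of_nonneg h (by positivity)
    linarith
  have hlt := t_lt_one (SimpleGraph.cycleGraph (k + 3)) (net q r) (a := 0) (b := 1) (by
    rw [SimpleGraph.cycleGraph_adj]; right; simp)
  refine ⟨ZMod q × ZMod q, inferInstance, net q r, hTpos.ne', hlt.ne, ?_⟩
  have hTneg := Real.log_neg hTpos hlt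
  rw [lt_div_iff_of_neg hTneg]
  have l1 := Real.log_le_log (by positivity) hS
  rw [Real.log_mul hSpos.ne' (by positivity), Real.log_pow] at l1
  have l2 := Real.log_le_log (by norm_num) hT
  rw [Real.log_one, Real.log_mul hTpos.ne' (by positivity), Real.log_mul hC0pos.ne' (by positivity),
    Real.log_pow] at l2
  rw [← hD] at l1
  rw [← hB] at l2
  have l3 : c' * Real.log (t (SimpleGraph.cycleGraph (k + 3)) (net q r)) ≤
      c * Real.log (t (SimpleGraph.cycleGraph (k + 3)) (net q r)) :=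
    mul_le_mul_of_nonpos_right hcc' hTneg.le
  have l4 := mul_le_mul_of_nonneg_left l2 hc0
  nlinarith

/-- For `3 ≤ m < n`, `n` even, the density domination exponent of the cycles `C_m` and `C_n` is
`ρ(C_m, C_n) = n (n - 2) / (n m - n - m)`; for instance `ρ(C_3, C_4) = 8 / 5`. -/
theorem result (m n : ℕ) (hm : 3 ≤ m) (hmn : m < n) (hn : Even n) :
    IsDominationExponent (SimpleGraph.cycleGraph m) (SimpleGraph.cycleGraph n)
      ((n : ℝ) * ((n : ℝ) - 2) / ((n : ℝ) * (m : ℝ) - (n : ℝ) - (m : ℝ))) := by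
  obtain ⟨k, rfl⟩ := Nat.exists_eq_add_of_le' hm
  obtain ⟨j, hj⟩ := hn
  obtain ⟨K, rfl⟩ : ∃ K, j = K + 2 := ⟨j - 2, by omega⟩
  have hn' : n = 2 * (K + 2) := by omega
  subst hn'
  constructor
  · intro X _ W h0 _
    exact upper W k K (by omega) h0
  · intro c hc
    have h := lower k (2 * K + 1) c (by
      refine lt_of_lt_of_le hc (le_of_eq ?_)
      congr 1
      · push_cast; ring
      · push_cast; ring)
    exact h

end Pool.Agent.Results.MP_3b2820_co.CyclesInEvenCycles
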