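import Pool.Agent.H59.DE.P53

/-!
# MP_3b2820_co: the density domination exponent `ρ(P_5, P_3)` is `7 / 10`

`P_m` is the path with `m` edges.
-/

set_option autoImplicit false

namespace Pool.Agent.Results.MP_3b2820_co.PathsFiveThree

open Pool.Agent.H59.DE

/-- The homomorphism density `t(F, W) = hom(F, W) / |V(W)| ^ |V(F)|` of a finite graph `F` in a
finite graph `W`. -/
noncomputable def t {V X : Type} [Fintype V] [Fintype X] (F : SimpleGraph V) (W : SimpleGraph X) :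
    ℝ :=
  (Nat.card (F →g W) : ℝ) / (Fintype.card X : ℝ) ^ Fintype.card V

/-- The density domination exponent `ρ(G, H)` is finite and equal to `ρ`: the supremum of
`log t(H, W) / log t(G, W)` over the finite graphs `W` with `t(G, W) ≠ 0, 1` is `ρ` (and
`t(H, W) ≠ 0` for all these `W`, since otherwise the ratio is infinite). -/
def IsDominationExponent {V V' : Type} [Fintype V] [Fintype V'] (G : SimpleGraph V)
    (H : SimpleGraph V') (ρ : ℝ) : Prop :=
  (∀ (X : Type) [Fintype X] (W : SimpleGraph X), t G W ≠ 0 → t G W ≠ 1 →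
    t H W ≠ 0 ∧ Real.log (t H W) / Real.log (t G W) ≤ ρ) ∧
  ∀ c < ρ, ∃ (X : Type) (_ : Fintype X) (W : SimpleGraph X), t G W ≠ 0 ∧ t G W ≠ 1 ∧
    c < Real.log (t H W) / Real.log (t G W)

theorem t_lt_one {V X : Type} [Fintype V] [Fintype X] [Nonempty X] (F : SimpleGraph V)
    (W : SimpleGraph X) {a b : V} (hab : F.Adj a b) : t F W < 1 := by
  classical
  haveI : Fintype (F →g W) := Fintype.ofFinite _
  have h1 : Fintype.card (F →g W) < Fintype.card (V → X) := by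
    refine Fintype.card_lt_of_injective_not_surjective (fun f : F →g W => (f : V → X))
      DFunLike.coe_injective ?_
    intro hs
    obtain ⟨x⟩ := ‹Nonempty X›
    obtain ⟨f, hf⟩ := hs (fun _ => x)
    have h2 := f.map_rel hab
    have e1 : f a = x := congrFun hf a
    have e2 : f b = x := congrFun hf b
    rw [e1, e2] at h2
    exact W.loopless.irrefl _ h2
  unfold t
  have hN : (0 : ℝ) < Fintype.card X := by exact_mod_cast Fintype.card_pos
  rw [div_lt_one (by positivity), Nat.card_eq_fintype_card]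
  rw [Fintype.card_fun] at h1
  exact_mod_cast h1

/-- homomorphisms from a path -/
def pathEquiv {Y : Type} (W : SimpleGraph Y) (k : ℕ) : (SimpleGraph.pathGraph (k + 1) →g W) ≃
    {f : Fin (k + 1) → Y // ∀ i : Fin k, W.Adj (f i.castSucc) (f i.succ)} where
  toFun := fun h => ⟨h, fun i => h.map_rel (by
    rw [SimpleGraph.pathGraph_adj]; left; simp)⟩
  invFun := fun f => ⟨f.1, by
    intro a b hab
    rw [SimpleGraph.pathGraph_adj] at hab
    rcases hab with h | h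
    · have ha : a.val < k := by have := b.2; omega
      have e1 : a = (⟨a.val, ha⟩ : Fin k).castSucc := Fin.ext rfl
      have e2 : b = (⟨a.val, ha⟩ : Fin k).succ := Fin.ext h.symm
      rw [e1, e2]
      exact f.2 _
    · have hb : b.val < k := by have := a.2; omega
      have e1 : b = (⟨b.val, hb⟩ : Fin k).castSucc := Fin.ext rfl
      have e2 : a = (⟨b.val, hb⟩ : Fin k).succ := Fin.ext h.symm
      rw [e1, e2]
      exact (f.2 _).symm⟩
  left_inv := fun h => rfl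
  right_inv := fun f => rfl

theorem card_path {X : Type} [Fintype X] [DecidableEq X] (W : SimpleGraph X) (k : ℕ) :
    (Nat.card (SimpleGraph.pathGraph (k + 1) →g W) : ℝ) = wk W k := by
  classical
  have h := sum_path (am W) k (fun _ _ => 1)
  simp only [one_mul] at h
  unfold wk
  rw [← h, Nat.card_congr (pathEquiv W k), Nat.card_eq_fintype_card, Fintype.card_subtype,
    Finset.card_filter]
  push_cast
  refine Finset.sum_congr rfl fun f _ => ?_
  unfold pp am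
  rw [Finset.prod_boole]
  simp

theorem t_path {X : Type} [Fintype X] [DecidableEq X] (W : SimpleGraph X) (k : ℕ) :
    t (SimpleGraph.pathGraph (k + 1)) W = wk W k / (Fintype.card X : ℝ) ^ (k + 1) := by
  unfold t
  rw [card_path, Fintype.card_fin]

theorem upper {X : Type} [Fintype X] (W : SimpleGraph X)
    (h0 : t (SimpleGraph.pathGraph 6) W ≠ 0) :
    t (SimpleGraph.pathGraph 4) W ≠ 0 ∧
    Real.log (t (SimpleGraph.pathGraph 4) W) / Real.log (t (SimpleGraph.pathGraph 6) W) ≤ 7 / 10 := by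
  classical
  haveI : Nonempty X := by
    by_contra hX
    rw [not_nonempty_iff] at hX
    apply h0
    unfold t
    rw [Fintype.card_eq_zero, Fintype.card_fin]
    simp
  have hN : (0 : ℝ) < Fintype.card X := by exact_mod_cast Fintype.card_pos
  have hlt := t_lt_one (SimpleGraph.pathGraph 6) W (a := 0) (b := 1) (by
    rw [SimpleGraph.pathGraph_adj]; left; rfl)
  have hTpos : 0 < t (SimpleGraph.pathGraph 6) W := by
    refine lt_of_le_of_ne ?_ (Ne.symm h0)
    unfold t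
    positivity
  have hTneg := Real.log_neg hTpos hlt
  rw [t_path W 5] at hTpos hTneg ⊢
  rw [t_path W 3]
  have h5 : 0 < wk W 5 := by
    have := mul_pos hTpos (pow_pos hN 6)
    rwa [div_mul_cancel₀ _ (pow_pos hN _).ne'] at this
  have h3 : 0 < wk W 3 := by
    rw [show (5 : ℕ) = 0 + 5 from rfl, wk_eq W 0 5] at h5
    obtain ⟨x, -, hx⟩ := Finset.exists_lt_of_sum_lt (s := (Finset.univ : Finset X))
      (f := fun _ => (0 : ℝ)) (g := fun x => u W 0 x * u W 5 x) (by simpa using h5)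
    rw [u_zero, one_mul] at hx
    have h1 := u_pos W hx 3
    rw [show (3 : ℕ) = 0 + 3 from rfl, wk_eq W 0 3]
    refine lt_of_lt_of_le ?_ (Finset.single_le_sum (f := fun x => u W 0 x * u W 3 x)
      (fun z _ => mul_nonneg (u_nonneg W 0 z) (u_nonneg W 3 z)) (Finset.mem_univ x))
    rw [u_zero, one_mul]
    exact h1
  refine ⟨(div_pos h3 (pow_pos hN _)).ne', ?_⟩
  have hm := main_ineq W h5
  rw [div_le_iff_of_neg hTneg, Real.log_div h5.ne' (pow_pos hN _).ne', Real.log_pow,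
    Real.log_div h3.ne' (pow_pos hN _).ne', Real.log_pow]
  push_cast
  linarith

/-- the adjacency of the extremal graph -/
def hadj (R : ℕ) : (Fin R × Fin (R * R)) ⊕ (Fin R ⊕ Fin R) →
    (Fin R × Fin (R * R)) ⊕ (Fin R ⊕ Fin R) → Prop
  | Sum.inl p, Sum.inr (Sum.inl j) => p.1 = j
  | Sum.inr (Sum.inl j), Sum.inl p => p.1 = j
  | Sum.inr (Sum.inl _), Sum.inr (Sum.inr _) => True
  | Sum.inr (Sum.inr _), Sum.inr (Sum.inl _) => True
  | Sum.inr (Sum.inr j), Sum.inr (Sum.inr k) => j ≠ k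
  | _, _ => False

/-- the extremal graph -/
def hg (R : ℕ) : SimpleGraph ((Fin R × Fin (R * R)) ⊕ (Fin R ⊕ Fin R)) where
  Adj := hadj R
  symm := ⟨by
    rintro (p | j | j) (q | k | k) h
    · exact h
    · exact h
    · exact h
    · exact h
    · exact h
    · trivial
    · exact h
    · trivial
    · exact Ne.symm h⟩
  loopless := ⟨by
    rintro (p | j | j) h
    · exact h
    · exact h
    · exact h rfl⟩

/-- the values of the adjacency matrix -/
def av (R : ℕ) : (Fin R × Fin (R * R)) ⊕ (Fin R ⊕ Fin R) →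
    (Fin R × Fin (R * R)) ⊕ (Fin R ⊕ Fin R) → ℝ
  | Sum.inl p, Sum.inr (Sum.inl j) => if p.1 = j then 1 else 0
  | Sum.inr (Sum.inl j), Sum.inl p => if p.1 = j then 1 else 0
  | Sum.inr (Sum.inl _), Sum.inr (Sum.inr _) => 1
  | Sum.inr (Sum.inr _), Sum.inr (Sum.inl _) => 1
  | Sum.inr (Sum.inr j), Sum.inr (Sum.inr k) => 1 - if j = k then 1 else 0
  | _, _ => 0

theorem am_av (R : ℕ) (x y : (Fin R × Fin (R * R)) ⊕ (Fin R ⊕ Fin R)) :
    am (hg R) x y = av R x y := by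
  classical
  have h0 : am (hg R) x y = if hadj R x y then 1 else 0 := by
    unfold am
    by_cases h : hadj R x y
    · rw [if_pos h]; exact if_pos h
    · rw [if_neg h]; exact if_neg h
  rw [h0]
  rcases x with p | j | j
  · rcases y with q | k | k
    · simp [hadj, av]
    · by_cases h : p.1 = k <;> simp [hadj, av, h]
    · simp [hadj, av]
  · rcases y with q | k | k
    · by_cases h : q.1 = j <;> simp [hadj, av, h]
    · simp [hadj, av]
    · simp [hadj, av]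
  · rcases y with q | k | k
    · simp [hadj, av]
    · simp [hadj, av]
    · by_cases h : j = k <;> simp [hadj, av, h]

theorem key (R : ℕ) (i : Fin R) (c : ℝ) : ∑ p : Fin R × Fin (R * R),
    (if p.1 = i then (1 : ℝ) else 0) * c = (R : ℝ) * R * c := by
  rw [Fintype.sum_prod_type]
  have h : ∀ x : Fin R, ∑ y : Fin (R * R), (if (x, y).1 = i then (1 : ℝ) else 0) * c =
      if x = i then (R : ℝ) * R * c else 0 := by
    intro x
    by_cases hx : x = i
    · simp [hx]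
    · simp [hx]
  rw [Finset.sum_congr rfl fun x _ => h x]
  simp

theorem u_eq (R k : ℕ) (c0 c1 c2 : ℝ) (h0 : ∀ p, u (hg R) k (Sum.inl p) = c0)
    (h1 : ∀ i, u (hg R) k (Sum.inr (Sum.inl i)) = c1)
    (h2 : ∀ i, u (hg R) k (Sum.inr (Sum.inr i)) = c2) :
    (∀ p, u (hg R) (k + 1) (Sum.inl p) = c1) ∧
    (∀ i, u (hg R) (k + 1) (Sum.inr (Sum.inl i)) = (R : ℝ) * R * c0 + R * c2) ∧
    (∀ i, u (hg R) (k + 1) (Sum.inr (Sum.inr i)) = (R : ℝ) * c1 + (R - 1) * c2) := by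
  refine ⟨fun p => ?_, fun i => ?_, fun i => ?_⟩
  · rw [u_succ]
    simp only [am_av, Fintype.sum_sum_type, av, h0, h1, h2]
    simp
  · rw [u_succ]
    simp only [am_av, Fintype.sum_sum_type, av, h0, h1, h2]
    rw [key]
    simp
  · rw [u_succ]
    simp only [am_av, Fintype.sum_sum_type, av, h0, h1, h2]
    simp [sub_mul]

theorem u1 (R : ℕ) : (∀ p, u (hg R) 1 (Sum.inl p) = 1) ∧
    (∀ i, u (hg R) 1 (Sum.inr (Sum.inl i)) = (R : ℝ) * R * 1 + R * 1) ∧
    (∀ i, u (hg R) 1 (Sum.inr (Sum.inr i)) = (R : ℝ) * 1 + (R - 1) * 1) :=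
  u_eq R 0 1 1 1 (fun _ => u_zero _ _) (fun _ => u_zero _ _) (fun _ => u_zero _ _)

theorem u2 (R : ℕ) : (∀ p, u (hg R) 2 (Sum.inl p) = (R : ℝ) * R * 1 + R * 1) ∧
    (∀ i, u (hg R) 2 (Sum.inr (Sum.inl i)) = (R : ℝ) * R * 1 + R * (R * 1 + (R - 1) * 1)) ∧
    (∀ i, u (hg R) 2 (Sum.inr (Sum.inr i)) =
      (R : ℝ) * (R * R * 1 + R * 1) + (R - 1) * (R * 1 + (R - 1) * 1)) :=
  u_eq R 1 _ _ _ (u1 R).1 (u1 R).2.1 (u1 R).2.2

theorem u3 (R : ℕ) : ∀ i, u (hg R) 3 (Sum.inr (Sum.inr i)) =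
      (R : ℝ) * (R * R * 1 + R * (R * 1 + (R - 1) * 1)) +
      (R - 1) * ((R : ℝ) * (R * R * 1 + R * 1) + (R - 1) * (R * 1 + (R - 1) * 1)) :=
  (u_eq R 2 _ _ _ (u2 R).1 (u2 R).2.1 (u2 R).2.2).2.2

theorem w3 (R : ℕ) (hR : 1 ≤ R) : wk (hg R) 3 ≤ 16 * (R : ℝ) ^ 5 := by
  obtain ⟨h1, h2, h3⟩ := u1 R
  obtain ⟨g1, g2, g3⟩ := u2 R
  rw [show (3 : ℕ) = 1 + 2 from rfl, wk_eq]
  simp only [Fintype.sum_sum_type, h1, h2, h3, g1, g2, g3, Finset.sum_const,
    Finset.card_univ, Fintype.card_prod, Fintype.card_fin, nsmul_eq_mul]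
  push_cast
  simp only [mul_one]
  have hR' : (1 : ℝ) ≤ R := by exact_mod_cast hR
  have e2 : (R : ℝ) ^ 2 ≤ (R : ℝ) ^ 3 := pow_le_pow_right₀ hR' (by norm_num)
  have e3 : (R : ℝ) ^ 4 ≤ (R : ℝ) ^ 5 := pow_le_pow_right₀ hR' (by norm_num)
  have e4 : (0 : ℝ) ≤ (R : ℝ) ^ 3 := by positivity
  nlinarith

theorem w5 (R : ℕ) (hR : 2 ≤ R) : (R : ℝ) ^ 8 / 2 ≤ wk (hg R) 5 := by
  obtain ⟨g1, g2, g3⟩ := u2 R
  have f3 := u3 R
  have hR' : (2 : ℝ) ≤ R := by exact_mod_cast hR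
  rw [show (5 : ℕ) = 2 + 3 from rfl, wk_eq, Fintype.sum_sum_type, Fintype.sum_sum_type]
  have p1 : 0 ≤ ∑ x, u (hg R) 2 (Sum.inl x) * u (hg R) 3 (Sum.inl x) :=
    Finset.sum_nonneg fun x _ => mul_nonneg (u_nonneg _ _ _) (u_nonneg _ _ _)
  have p2 : 0 ≤ ∑ x, u (hg R) 2 (Sum.inr (Sum.inl x)) * u (hg R) 3 (Sum.inr (Sum.inl x)) :=
    Finset.sum_nonneg fun x _ => mul_nonneg (u_nonneg _ _ _) (u_nonneg _ _ _)
  have p3 : (R : ℝ) ^ 8 / 2 ≤
      ∑ x, u (hg R) 2 (Sum.inr (Sum.inr x)) * u (hg R) 3 (Sum.inr (Sum.inr x)) := by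
    simp only [g3, f3, Finset.sum_const, Finset.card_univ, Fintype.card_fin, nsmul_eq_mul]
    simp only [mul_one]
    have a1 : (R : ℝ) ^ 3 ≤ (R : ℝ) * (R * R + R) + (R - 1) * (R + (R - 1)) := by nlinarith
    have a2 : ((R : ℝ) - 1) * (R : ℝ) ^ 3 ≤ (R : ℝ) * (R * R + R * (R + (R - 1))) +
      (R - 1) * ((R : ℝ) * (R * R + R) + (R - 1) * (R + (R - 1))) := by
      have b1 := mul_le_mul_of_nonneg_left a1 (by linarith : (0 : ℝ) ≤ (R : ℝ) - 1)
      have b2 : (0 : ℝ) ≤ (R : ℝ) * (R * R + R * (R + (R - 1))) := by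
        have : (0 : ℝ) ≤ (R : ℝ) - 1 := by linarith
        positivity
      linarith
    have a3 := mul_le_mul a1 a2 (by
      have : (0 : ℝ) ≤ (R : ℝ) - 1 := by linarith
      positivity) (le_trans (by positivity) a1)
    have a4 := mul_le_mul_of_nonneg_left a3 (by positivity : (0 : ℝ) ≤ (R : ℝ))
    refine le_trans ?_ a4
    have a5 : (R : ℝ) * ((R : ℝ) ^ 3 * (((R : ℝ) - 1) * (R : ℝ) ^ 3)) =
      (R : ℝ) ^ 7 * ((R : ℝ) - 1) := by ring
    rw [a5]
    have a6 : (0 : ℝ) ≤ (R : ℝ) ^ 7 := by positivity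
    nlinarith
  linarith

theorem lower (c : ℝ) (hc : c < 7 / 10) :
    ∃ (X : Type) (_ : Fintype X) (W : SimpleGraph X), t (SimpleGraph.pathGraph 6) W ≠ 0 ∧
      t (SimpleGraph.pathGraph 6) W ≠ 1 ∧
      c < Real.log (t (SimpleGraph.pathGraph 4) W) / Real.log (t (SimpleGraph.pathGraph 6) W) := by
  classical
  obtain ⟨c', hc0, hcc', hc'⟩ : ∃ c' : ℝ, 0 ≤ c' ∧ c ≤ c' ∧ c' * 10 < 7 :=
    ⟨max c 0, le_max_right _ _, le_max_left _ _, by
      have : max c 0 < 7 / 10 := max_lt hc (by norm_num)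
      linarith⟩
  obtain ⟨R, hR2, hRM⟩ : ∃ R : ℕ, 2 ≤ R ∧
      Real.log 16 + c' * Real.log 1458 < (7 - c' * 10) * Real.log R := by
    obtain ⟨r0, hr0⟩ := exists_nat_gt (Real.exp ((Real.log 16 + c' * Real.log 1458) / (7 - c' * 10)))
    refine ⟨max r0 2, le_max_right _ _, ?_⟩
    have h1 : Real.exp ((Real.log 16 + c' * Real.log 1458) / (7 - c' * 10)) < ((max r0 2 : ℕ) : ℝ) :=
      lt_of_lt_of_le hr0 (by exact_mod_cast le_max_left _ _)
    have h2 := Real.log_lt_log (Real.exp_pos _) h1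
    rw [Real.log_exp, div_lt_iff₀ (by linarith)] at h2
    linarith
  have hR' : (2 : ℝ) ≤ R := by exact_mod_cast hR2
  have hRp : (0 : ℝ) < R := by linarith
  haveI : Nonempty ((Fin R × Fin (R * R)) ⊕ (Fin R ⊕ Fin R)) :=
    ⟨Sum.inr (Sum.inl ⟨0, by omega⟩)⟩
  have hcard : (Fintype.card ((Fin R × Fin (R * R)) ⊕ (Fin R ⊕ Fin R)) : ℝ) =
      (R : ℝ) ^ 3 + 2 * R := by
    rw [Fintype.card_sum, Fintype.card_sum, Fintype.card_prod, Fintype.card_fin, Fintype.card_fin]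
    push_cast
    ring
  have hw3 := w3 R (by omega)
  have hw5 := w5 R hR2
  have h5pos : 0 < wk (hg R) 5 := lt_of_lt_of_le (by positivity) hw5
  have e5 := t_path (hg R) 5
  have e3 := t_path (hg R) 3
  rw [hcard] at e5 e3
  have hlt := t_lt_one (SimpleGraph.pathGraph 6) (hg R) (a := 0) (b := 1) (by
    rw [SimpleGraph.pathGraph_adj]; left; rfl)
  have hTpos : 0 < t (SimpleGraph.pathGraph 6) (hg R) := by
    rw [e5]; positivity
  have hup := upper (hg R) hTpos.ne'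
  have hSpos : 0 < t (SimpleGraph.pathGraph 4) (hg R) := by
    refine lt_of_le_of_ne ?_ (Ne.symm hup.1)
    unfold t
    positivity
  have hS : t (SimpleGraph.pathGraph 4) (hg R) * (R : ℝ) ^ 7 ≤ 16 := by
    rw [e3, div_mul_eq_mul_div, div_le_iff₀ (by positivity)]
    have b1 : ((R : ℝ) ^ 3) ^ 4 ≤ ((R : ℝ) ^ 3 + 2 * R) ^ 4 :=
      pow_le_pow_left₀ (by positivity) (by linarith) 4
    have b2 := mul_le_mul_of_nonneg_right hw3 (by positivity : (0 : ℝ) ≤ (R : ℝ) ^ 7)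
    have b3 : 16 * (R : ℝ) ^ 5 * (R : ℝ) ^ 7 = 16 * ((R : ℝ) ^ 3) ^ 4 := by ring
    norm_num at b1 b2 b3 ⊢
    linarith
  have hT : 1 ≤ t (SimpleGraph.pathGraph 6) (hg R) * (1458 * (R : ℝ) ^ 10) := by
    rw [e5, div_mul_eq_mul_div, one_le_div₀ (by positivity)]
    have b0 : (R : ℝ) ^ 3 + 2 * R ≤ 3 * (R : ℝ) ^ 3 := by
      have : (R : ℝ) ^ 1 ≤ (R : ℝ) ^ 3 := pow_le_pow_right₀ (by linarith) (by norm_num)
      rw [pow_one] at this
      linarith
    have b1 : ((R : ℝ) ^ 3 + 2 * R) ^ 6 ≤ (3 * (R : ℝ) ^ 3) ^ 6 :=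
      pow_le_pow_left₀ (by positivity) b0 6
    have b2 := mul_le_mul_of_nonneg_right hw5 (by positivity : (0 : ℝ) ≤ 1458 * (R : ℝ) ^ 10)
    have b3 : (R : ℝ) ^ 8 / 2 * (1458 * (R : ℝ) ^ 10) = (3 * (R : ℝ) ^ 3) ^ 6 := by ring
    norm_num at b1 b2 b3 ⊢
    linarith
  refine ⟨_, inferInstance, hg R, hTpos.ne', hlt.ne, ?_⟩
  have hTneg := Real.log_neg hTpos hlt
  rw [lt_div_iff_of_neg hTneg]
  have l1 := Real.log_le_log (by positivity) hS
  rw [Real.log_mul hSpos.ne' (by positivity), Real.log_pow] at l1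
  have l2 := Real.log_le_log (by norm_num) hT
  rw [Real.log_one, Real.log_mul hTpos.ne' (by positivity), Real.log_mul (by norm_num) (by positivity),
    Real.log_pow] at l2
  push_cast at l1 l2
  have l3 : c' * Real.log (t (SimpleGraph.pathGraph 6) (hg R)) ≤
      c * Real.log (t (SimpleGraph.pathGraph 6) (hg R)) :=
    mul_le_mul_of_nonpos_right hcc' hTneg.le
  have l4 := mul_le_mul_of_nonneg_left l2 hc0
  nlinarith

/-- `ρ(P_5, P_3) = 7 / 10`, where `P_m` is the path with `m` edges (so `P_5` has 6 vertices and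
`P_3` has 4 vertices). -/
theorem result :
    IsDominationExponent (SimpleGraph.pathGraph 6) (SimpleGraph.pathGraph 4) (7 / 10) :=
  ⟨fun _ _ W h0 _ => upper W h0, fun c hc => lower c hc⟩

end Pool.Agent.Results.MP_3b2820_co.PathsFiveThree
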